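import Mathlib

set_option autoImplicit false
set_option linter.unusedSectionVars false
set_option linter.unusedVariables false

namespace Pool.Agent.Lib_5f1296



section Abstract

variable {C : Type} [CommRing C]

/-- matrices with all entries in the ideal `J` -/
def InM (J : Ideal C) (M : Matrix (Fin 3) (Fin 3) C) : Prop := ∀ i j, M i j ∈ J

theorem InM.add {J : Ideal C} {M N : Matrix (Fin 3) (Fin 3) C} (hM : InM J M) (hN : InM J N) :
    InM J (M + N) := fun i j => J.add_mem (hM i j) (hN i j)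

theorem InM.sub {J : Ideal C} {M N : Matrix (Fin 3) (Fin 3) C} (hM : InM J M) (hN : InM J N) :
    InM J (M - N) := fun i j => J.sub_mem (hM i j) (hN i j)

theorem InM.neg {J : Ideal C} {M : Matrix (Fin 3) (Fin 3) C} (hM : InM J M) :
    InM J (-M) := fun i j => J.neg_mem (hM i j)

theorem InM.zero {J : Ideal C} : InM J (0 : Matrix (Fin 3) (Fin 3) C) := fun i j => J.zero_mem

theorem InM.mono {J K : Ideal C} (h : J ≤ K) {M : Matrix (Fin 3) (Fin 3) C} (hM : InM J M) :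
    InM K M := fun i j => h (hM i j)

theorem InM.mul_left {J : Ideal C} (M : Matrix (Fin 3) (Fin 3) C) {N : Matrix (Fin 3) (Fin 3) C}
    (hN : InM J N) : InM J (M * N) := by
  intro i j
  rw [Matrix.mul_apply]
  exact J.sum_mem (fun k _ => J.mul_mem_left _ (hN k j))

theorem InM.mul_right {J : Ideal C} {M : Matrix (Fin 3) (Fin 3) C} (hM : InM J M)
    (N : Matrix (Fin 3) (Fin 3) C) : InM J (M * N) := by
  intro i j
  rw [Matrix.mul_apply]
  exact J.sum_mem (fun k _ => J.mul_mem_right _ (hM i k))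

theorem InM.mul {J K : Ideal C} {M N : Matrix (Fin 3) (Fin 3) C} (hM : InM J M)
    (hN : InM K N) : InM (J * K) (M * N) := by
  intro i j
  rw [Matrix.mul_apply]
  exact (J * K).sum_mem (fun k _ => Ideal.mul_mem_mul (hM i k) (hN k j))

/-- The congruence subgroup of `GL_3` modulo `J`. -/
def Cong (J : Ideal C) : Subgroup (Matrix (Fin 3) (Fin 3) C)ˣ where
  carrier := {u | InM J ((u : Matrix (Fin 3) (Fin 3) C) - 1)}
  mul_mem' := by
    intro u v hu hv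
    have h : ((u * v : (Matrix (Fin 3) (Fin 3) C)ˣ) : Matrix (Fin 3) (Fin 3) C) - 1
        = (u - 1) * v + (v - 1) := by
      rw [Units.val_mul]; noncomm_ring
    show InM J _
    rw [h]
    exact (InM.mul_right hu _).add hv
  one_mem' := by
    show InM J _
    rw [Units.val_one, sub_self]
    exact InM.zero
  inv_mem' := by
    intro u hu
    have h : ((u⁻¹ : (Matrix (Fin 3) (Fin 3) C)ˣ) : Matrix (Fin 3) (Fin 3) C) - 1
        = -((u⁻¹ : (Matrix (Fin 3) (Fin 3) C)ˣ) * ((u : Matrix (Fin 3) (Fin 3) C) - 1)) := by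
      rw [mul_sub, Units.inv_mul]; noncomm_ring
    show InM J _
    rw [h]
    exact (InM.mul_left _ hu).neg

theorem mem_Cong {J : Ideal C} {u : (Matrix (Fin 3) (Fin 3) C)ˣ} :
    u ∈ Cong J ↔ InM J ((u : Matrix (Fin 3) (Fin 3) C) - 1) := Iff.rfl

instance Cong_normal (J : Ideal C) : (Cong J).Normal where
  conj_mem := by
    intro n hn g
    rw [mem_Cong] at hn ⊢
    have h : ((g * n * g⁻¹ : (Matrix (Fin 3) (Fin 3) C)ˣ) : Matrix (Fin 3) (Fin 3) C) - 1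
        = g * ((n : Matrix (Fin 3) (Fin 3) C) - 1) * (g⁻¹ : (Matrix (Fin 3) (Fin 3) C)ˣ) := by
      rw [Units.val_mul, Units.val_mul, mul_sub, sub_mul, mul_one, Units.mul_inv]
    rw [h]
    exact InM.mul_right (InM.mul_left _ hn) _

theorem Cong_mono {J K : Ideal C} (h : J ≤ K) : Cong J ≤ Cong K :=
  fun _ hu => InM.mono h hu

theorem Cong_bot : Cong (⊥ : Ideal C) = ⊥ := by
  rw [eq_bot_iff]
  intro u hu
  rw [Subgroup.mem_bot]
  apply Units.ext
  rw [Units.val_one]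
  ext i j
  have := hu i j
  rw [Ideal.mem_bot, Matrix.sub_apply, sub_eq_zero] at this
  exact this

/-- Commutators of congruence subgroups. -/
theorem Cong_comm {J K L : Ideal C} (hJK : J * K ≤ L) {u v : (Matrix (Fin 3) (Fin 3) C)ˣ}
    (hu : u ∈ Cong J) (hv : v ∈ Cong K) : u * v * u⁻¹ * v⁻¹ ∈ Cong L := by
  rw [mem_Cong] at hu hv ⊢
  have h : ((u * v * u⁻¹ * v⁻¹ : (Matrix (Fin 3) (Fin 3) C)ˣ) : Matrix (Fin 3) (Fin 3) C) - 1
      = (((u : Matrix (Fin 3) (Fin 3) C) - 1) * ((v : Matrix (Fin 3) (Fin 3) C) - 1)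
          - ((v : Matrix (Fin 3) (Fin 3) C) - 1) * ((u : Matrix (Fin 3) (Fin 3) C) - 1))
        * ((u⁻¹ * v⁻¹ : (Matrix (Fin 3) (Fin 3) C)ˣ) : Matrix (Fin 3) (Fin 3) C) := by
    have h1 : ((u : Matrix (Fin 3) (Fin 3) C) - 1) * ((v : Matrix (Fin 3) (Fin 3) C) - 1)
          - ((v : Matrix (Fin 3) (Fin 3) C) - 1) * ((u : Matrix (Fin 3) (Fin 3) C) - 1)
          = ((u * v : (Matrix (Fin 3) (Fin 3) C)ˣ) : Matrix (Fin 3) (Fin 3) C)
            - ((v * u : (Matrix (Fin 3) (Fin 3) C)ˣ) : Matrix (Fin 3) (Fin 3) C) := by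
      rw [Units.val_mul, Units.val_mul]; noncomm_ring
    rw [h1, sub_mul, ← Units.val_mul, ← Units.val_mul]
    have h2 : v * u * (u⁻¹ * v⁻¹) = 1 := by group
    rw [h2, Units.val_one, mul_assoc (u * v)]
  rw [h]
  apply InM.mul_right
  apply InM.sub
  · exact InM.mono hJK (InM.mul hu hv)
  · exact InM.mono (by rw [mul_comm]; exact hJK) (InM.mul hv hu)

/-- The action of a ring automorphism on `GL_3`. -/
def sU (σ : C ≃+* C) : (Matrix (Fin 3) (Fin 3) C)ˣ ≃* (Matrix (Fin 3) (Fin 3) C)ˣ :=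
  Units.mapEquiv (σ.mapMatrix : Matrix (Fin 3) (Fin 3) C ≃+* Matrix (Fin 3) (Fin 3) C).toMulEquiv

theorem sU_apply (σ : C ≃+* C) (u : (Matrix (Fin 3) (Fin 3) C)ˣ) (i j : Fin 3) :
    (sU σ u : Matrix (Fin 3) (Fin 3) C) i j = σ ((u : Matrix (Fin 3) (Fin 3) C) i j) := rfl

theorem sU_val (σ : C ≃+* C) (u : (Matrix (Fin 3) (Fin 3) C)ˣ) :
    (sU σ u : Matrix (Fin 3) (Fin 3) C) = σ.mapMatrix (u : Matrix (Fin 3) (Fin 3) C) := rfl

theorem InM.map {J K : Ideal C} (σ : C ≃+* C) (h : ∀ a ∈ J, σ a ∈ K)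
    {M : Matrix (Fin 3) (Fin 3) C} (hM : InM J M) : InM K (σ.mapMatrix M) :=
  fun i j => h _ (hM i j)

theorem Cong_map {J K : Ideal C} (σ : C ≃+* C) (h : ∀ a ∈ J, σ a ∈ K)
    {u : (Matrix (Fin 3) (Fin 3) C)ˣ} (hu : u ∈ Cong J) : sU σ u ∈ Cong K := by
  rw [mem_Cong] at hu ⊢
  have := InM.map σ h hu
  rw [map_sub, map_one] at this
  exact this

end Abstract

section Grp

/-- The data from which the counterexample is built: a commutative ring of characteristic two with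
an involution `σ` and a nil ideal `A` (squares of elements vanish), exhausted by an
ascending chain of ideals with square-zero factors. -/
structure Data (C : Type) [CommRing C] where
  σ : C ≃+* C
  invol : ∀ c, σ (σ c) = c
  two : (2 : C) = 0
  A : Ideal C
  sq : ∀ a ∈ A, a * a = 0
  stab : ∀ a ∈ A, σ a ∈ A
  J : ℕ → Ideal C
  J0 : J 0 = ⊥
  Jmono : Monotone J
  Jsq : ∀ k, J (k + 1) * J (k + 1) ≤ J k
  JA : ∀ k, J k ≤ A
  Jsup : ∀ s : Finset C, (∀ a ∈ s, a ∈ A) → ∃ k, ∀ a ∈ s, a ∈ J k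

variable {C : Type} [CommRing C] (D : Data C)

/-- The involution on the congruence subgroup. -/
def sN : MulAut ↥(Cong D.A) where
  toFun u := ⟨sU D.σ u.1, Cong_map D.σ D.stab u.2⟩
  invFun u := ⟨sU D.σ u.1, Cong_map D.σ D.stab u.2⟩
  left_inv u := by
    apply Subtype.ext; apply Units.ext; ext i j
    simp only [sU_apply, D.invol]
  right_inv u := by
    apply Subtype.ext; apply Units.ext; ext i j
    simp only [sU_apply, D.invol]
  map_mul' u v := by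
    apply Subtype.ext
    simp only [Subgroup.coe_mul, map_mul]

theorem sN_val (u : ↥(Cong D.A)) : (sN D u).1 = sU D.σ u.1 := rfl

theorem sN_sN : sN D * sN D = 1 := by
  ext u i j
  show (sU D.σ (sU D.σ u.1) : Matrix (Fin 3) (Fin 3) C) i j = _
  simp only [sU_apply, D.invol]
  rfl

/-- The group: the semidirect product of the congruence subgroup by the group generated by the
involution. -/
abbrev GG : Type :=
  ↥(Cong D.A) ⋊[(Subgroup.zpowers (sN D)).subtype] ↥(Subgroup.zpowers (sN D))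

theorem H_cases (τ : ↥(Subgroup.zpowers (sN D))) :
    (τ : MulAut ↥(Cong D.A)) = 1 ∨ (τ : MulAut ↥(Cong D.A)) = sN D := by
  obtain ⟨t, n, rfl⟩ := τ
  show sN D ^ n = 1 ∨ sN D ^ n = sN D
  have h2 : sN D ^ (2 : ℤ) = 1 := by
    rw [zpow_two]; exact sN_sN D
  rcases Int.even_or_odd' n with ⟨m, rfl | rfl⟩
  · left
    rw [_root_.zpow_mul, h2, one_zpow]
  · right
    rw [_root_.zpow_add, _root_.zpow_mul, h2, one_zpow, one_mul, zpow_one]

/-- Each element of the complement acts through a ring automorphism that is an involution. -/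
theorem H_ring (τ : ↥(Subgroup.zpowers (sN D))) :
    ∃ ρ : C ≃+* C, (ρ = RingEquiv.refl C ∨ ρ = D.σ) ∧ (∀ c, ρ (ρ c) = c) ∧
      (∀ u : ↥(Cong D.A), ((τ : MulAut ↥(Cong D.A)) u).1 = sU ρ u.1) := by
  rcases H_cases D τ with h | h
  · refine ⟨RingEquiv.refl C, Or.inl rfl, fun c => rfl, fun u => ?_⟩
    rw [h]
    apply Units.ext
    ext i j
    rfl
  · refine ⟨D.σ, Or.inr rfl, D.invol, fun u => ?_⟩
    rw [h]
    rfl

/-- first order expansion of the commutator -/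
theorem key {I J : Ideal C} (hJI : J ≤ I) (ρ : C ≃+* C) (hJ : ∀ a ∈ J, ρ a ∈ J)
    (hIJ : ∀ a ∈ I * J, ρ a ∈ I * J) {u b : (Matrix (Fin 3) (Fin 3) C)ˣ}
    (hu : u ∈ Cong I) (hb : b ∈ Cong J) :
    (b⁻¹ * sU ρ (u⁻¹ * b * u)) ∈ Cong J ∧
    InM (I * J) ((((b⁻¹ * sU ρ (u⁻¹ * b * u) : (Matrix (Fin 3) (Fin 3) C)ˣ) :
        Matrix (Fin 3) (Fin 3) C) - 1)
        - (ρ.mapMatrix ((b : Matrix (Fin 3) (Fin 3) C) - 1)
            - ((b : Matrix (Fin 3) (Fin 3) C) - 1))) := by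
  have hc : (b⁻¹ * sU ρ (u⁻¹ * b * u)) ∈ Cong J := by
    apply mul_mem (inv_mem hb)
    apply Cong_map ρ hJ
    have := (Cong_normal J).conj_mem b hb u⁻¹
    rwa [inv_inv] at this
  refine ⟨hc, ?_⟩
  set c := b⁻¹ * sU ρ (u⁻¹ * b * u) with hcdef
  have hbc : (b : Matrix (Fin 3) (Fin 3) C) * c
      = ρ.mapMatrix ((u⁻¹ * b * u : (Matrix (Fin 3) (Fin 3) C)ˣ) : Matrix (Fin 3) (Fin 3) C) := by
    rw [← Units.val_mul, hcdef, mul_inv_cancel_left, sU_val]
  have h1 : (u : Matrix (Fin 3) (Fin 3) C) *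
      (((u⁻¹ * b * u : (Matrix (Fin 3) (Fin 3) C)ˣ) : Matrix (Fin 3) (Fin 3) C)
        - (b : Matrix (Fin 3) (Fin 3) C))
      = ((b : Matrix (Fin 3) (Fin 3) C) - 1) * ((u : Matrix (Fin 3) (Fin 3) C) - 1)
        - ((u : Matrix (Fin 3) (Fin 3) C) - 1) * ((b : Matrix (Fin 3) (Fin 3) C) - 1) := by
    rw [mul_sub, ← Units.val_mul, ← mul_assoc, mul_inv_cancel_left, Units.val_mul]
    noncomm_ring
  have h2 : (((u⁻¹ * b * u : (Matrix (Fin 3) (Fin 3) C)ˣ) : Matrix (Fin 3) (Fin 3) C)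
        - (b : Matrix (Fin 3) (Fin 3) C))
      = ((u⁻¹ : (Matrix (Fin 3) (Fin 3) C)ˣ) : Matrix (Fin 3) (Fin 3) C) *
        (((b : Matrix (Fin 3) (Fin 3) C) - 1) * ((u : Matrix (Fin 3) (Fin 3) C) - 1)
        - ((u : Matrix (Fin 3) (Fin 3) C) - 1) * ((b : Matrix (Fin 3) (Fin 3) C) - 1)) := by
    rw [← h1, Units.inv_mul_cancel_left]
  have h3 : InM (I * J)
      (((u⁻¹ * b * u : (Matrix (Fin 3) (Fin 3) C)ˣ) : Matrix (Fin 3) (Fin 3) C)
        - (b : Matrix (Fin 3) (Fin 3) C)) := by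
    rw [h2]
    apply InM.mul_left
    apply InM.sub
    · exact InM.mono (by rw [mul_comm]) (InM.mul hb hu)
    · exact InM.mul hu hb
  have h4 : (((c : (Matrix (Fin 3) (Fin 3) C)ˣ) : Matrix (Fin 3) (Fin 3) C) - 1)
        - (ρ.mapMatrix ((b : Matrix (Fin 3) (Fin 3) C) - 1)
            - ((b : Matrix (Fin 3) (Fin 3) C) - 1))
      = ρ.mapMatrix (((u⁻¹ * b * u : (Matrix (Fin 3) (Fin 3) C)ˣ) : Matrix (Fin 3) (Fin 3) C)
          - (b : Matrix (Fin 3) (Fin 3) C))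
        - ((b : Matrix (Fin 3) (Fin 3) C) - 1) * ((c : Matrix (Fin 3) (Fin 3) C) - 1) := by
    rw [map_sub, map_sub, ← hbc, map_one]
    noncomm_ring
  rw [h4]
  apply InM.sub
  · exact InM.map ρ hIJ h3
  · exact InM.mono (Ideal.mul_mono_left hJI) (InM.mul hb hc)

theorem mapMatrix_invol (ρ : C ≃+* C) (hρ : ∀ c, ρ (ρ c) = c) (M : Matrix (Fin 3) (Fin 3) C) :
    ρ.mapMatrix (ρ.mapMatrix M) = M := by
  ext i j
  exact hρ _

theorem two_steps (h2 : (2 : C) = 0) {I J : Ideal C} (hJI : J ≤ I) (ρ : C ≃+* C)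
    (hρ : ∀ c, ρ (ρ c) = c)
    (hJ : ∀ a ∈ J, ρ a ∈ J)
    (hIJ : ∀ a ∈ I * J, ρ a ∈ I * J) {u b : (Matrix (Fin 3) (Fin 3) C)ˣ}
    (hu : u ∈ Cong I) (hb : b ∈ Cong J) (c : (Matrix (Fin 3) (Fin 3) C)ˣ)
    (hc : c = b⁻¹ * sU ρ (u⁻¹ * b * u)) :
    (c⁻¹ * sU ρ (u⁻¹ * c * u)) ∈ Cong (I * J) := by
  obtain ⟨hcJ, hc2⟩ := key hJI ρ hJ hIJ hu hb
  rw [← hc] at hcJ hc2
  obtain ⟨hdJ, hd2⟩ := key hJI ρ hJ hIJ hu hcJ
  set d := c⁻¹ * sU ρ (u⁻¹ * c * u) with hd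
  rw [mem_Cong]
  set T := (b : Matrix (Fin 3) (Fin 3) C) - 1 with hT
  set U := (c : Matrix (Fin 3) (Fin 3) C) - 1 with hU
  have h5 := InM.map ρ hIJ hc2
  clear_value T U
  have h6 : (d : Matrix (Fin 3) (Fin 3) C) - 1 =
      ((d : Matrix (Fin 3) (Fin 3) C) - 1 - (ρ.mapMatrix U - U))
      + ρ.mapMatrix (U - (ρ.mapMatrix T - T)) - (U - (ρ.mapMatrix T - T))
      + (2 : C) • (T - ρ.mapMatrix T) := by
    rw [map_sub, map_sub, mapMatrix_invol ρ hρ, two_smul]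
    abel
  rw [h6, h2, zero_smul, add_zero]
  exact (hd2.add h5).sub hc2

end Grp

end Pool.Agent.Lib_5f1296
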