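import Pool.Agent.Lib_5f1296.Abstract

set_option autoImplicit false
set_option linter.unusedSectionVars false
set_option linter.unusedVariables false

namespace Pool.Agent.Lib_5f1296

/-! ### Ideals generated by finitely many square-zero elements are nilpotent -/

theorem span_nilp {C : Type} [CommRing C] [DecidableEq C] (s : Finset C) :
    (∀ a ∈ s, a * a = 0) → (Ideal.span (s : Set C)) ^ (2 * s.card + 1) = ⊥ := by
  induction s using Finset.induction_on with
  | empty =>
    intro _
    simp
  | insert a s ha ih =>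
    intro h
    rw [Finset.card_insert_of_notMem ha, Finset.coe_insert, Ideal.span_insert]
    have h1 : (Ideal.span (s : Set C)) ^ (2 * s.card + 1) = ⊥ :=
      ih (fun b hb => h b (Finset.mem_insert_of_mem hb))
    have h2 : (Ideal.span ({a} : Set C)) ^ 2 = ⊥ := by
      rw [Ideal.span_singleton_pow, sq, h a (Finset.mem_insert_self a s)]
      simp
    have h3 : 2 * (s.card + 1) + 1 = 2 + (2 * s.card + 1) := by ring
    rw [h3, eq_bot_iff]
    refine le_trans Ideal.sup_pow_add_le_pow_sup_pow ?_
    rw [h1, h2]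
    simp

section

variable {C : Type} [CommRing C] (D : Data C)

/-- For each `u` in the group there is a `σ`-stable ideal of nilpotency index at most 37 with
`u` congruent to one modulo the ideal. -/
theorem exists_ideal (u : (Matrix (Fin 3) (Fin 3) C)ˣ) (hu : u ∈ Cong D.A) :
    ∃ I : Ideal C, (∀ a ∈ I, D.σ a ∈ I) ∧ u ∈ Cong I ∧ I ≤ D.A ∧ I ^ 37 = ⊥ := by
  classical
  let s : Finset C := Finset.univ.image
    (fun p : Fin 3 × Fin 3 => ((u : Matrix (Fin 3) (Fin 3) C) - 1) p.1 p.2)
  let t : Finset C := s ∪ s.image D.σ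
  have hs : s.card ≤ 9 := by
    refine le_trans Finset.card_image_le ?_
    simp
  have ht : t.card ≤ 18 := by
    refine le_trans (Finset.card_union_le _ _) ?_
    have : (s.image D.σ).card ≤ s.card := Finset.card_image_le
    omega
  have hsA : ∀ a ∈ s, a ∈ D.A := by
    intro a ha
    rw [Finset.mem_image] at ha
    obtain ⟨p, _, rfl⟩ := ha
    exact hu p.1 p.2
  have htA : ∀ a ∈ t, a ∈ D.A := by
    intro a ha
    rw [Finset.mem_union] at ha
    rcases ha with ha | ha
    · exact hsA a ha
    · rw [Finset.mem_image] at ha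
      obtain ⟨b, hb, rfl⟩ := ha
      exact D.stab b (hsA b hb)
  have htσ : ∀ a ∈ t, D.σ a ∈ t := by
    intro a ha
    rw [Finset.mem_union] at ha ⊢
    rcases ha with ha | ha
    · right; exact Finset.mem_image_of_mem _ ha
    · left
      rw [Finset.mem_image] at ha
      obtain ⟨b, hb, rfl⟩ := ha
      rw [D.invol]; exact hb
  refine ⟨Ideal.span (t : Set C), ?_, ?_, ?_, ?_⟩
  · intro a ha
    have h1 : Ideal.span (t : Set C) ≤ (Ideal.span (t : Set C)).comap D.σ := by
      rw [Ideal.span_le]
      intro b hb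
      exact Ideal.subset_span (htσ b hb)
    exact h1 ha
  · intro i j
    apply Ideal.subset_span
    show _ ∈ (t : Set C)
    rw [Finset.mem_coe, Finset.mem_union]
    left
    rw [Finset.mem_image]
    exact ⟨(i, j), Finset.mem_univ _, rfl⟩
  · rw [Ideal.span_le]
    intro a ha
    exact htA a ha
  · have h1 := span_nilp t (fun a ha => D.sq a (htA a ha))
    rw [eq_bot_iff]
    refine le_trans (Ideal.pow_le_pow_right (m := 2 * t.card + 1) (by omega)) ?_
    rw [h1]

theorem conj_formula (x : GG D) (b : ↥(Cong D.A)) :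
    (SemidirectProduct.inl b : GG D)⁻¹ * x⁻¹ * SemidirectProduct.inl b * x
      = SemidirectProduct.inl (b⁻¹ * ((x.right⁻¹ : ↥(Subgroup.zpowers (sN D))) :
          MulAut ↥(Cong D.A)) (x.left⁻¹ * b * x.left)) := by
  ext1
  · simp only [SemidirectProduct.mul_left, SemidirectProduct.mul_right,
      SemidirectProduct.inv_left, SemidirectProduct.inv_right, SemidirectProduct.left_inl,
      SemidirectProduct.right_inl, Subgroup.coe_subtype, inv_one, map_one, MulAut.one_apply,
      one_mul, mul_one, map_mul, map_inv, Subgroup.coe_inv]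
    simp only [mul_assoc]
  · simp only [SemidirectProduct.mul_right, SemidirectProduct.inv_right,
      SemidirectProduct.right_inl, inv_one, one_mul, mul_one, inv_mul_cancel]

/-- The group is uniformly right Engel at the involution. -/
theorem engel (x : GG D) (a : ↥(Subgroup.zpowers (sN D))) :
    (fun y : GG D => y⁻¹ * x⁻¹ * y * x)^[73] (SemidirectProduct.inr a) = 1 := by
  obtain ⟨I, hIσ, hxI, hIA, hI⟩ := exists_ideal D x.left.1 x.left.2
  obtain ⟨ρ, hρ, hρρ, hρx⟩ := H_ring D (x.right⁻¹)
  have hIρ : ∀ a ∈ I, ρ a ∈ I := by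
    rcases hρ with rfl | rfl
    · intro a ha; exact ha
    · exact hIσ
  have hIρk : ∀ k : ℕ, ∀ a ∈ I ^ k, ρ a ∈ I ^ k := by
    intro k a ha
    have h1 : (I ^ k).map (ρ : C →+* C) ≤ I ^ k := by
      rw [Ideal.map_pow]
      apply Ideal.pow_right_mono
      rw [Ideal.map_le_iff_le_comap]
      intro b hb
      exact hIρ b hb
    exact h1 (Ideal.mem_map_of_mem (ρ : C →+* C) ha)
  -- the first step
  set F := (fun y : GG D => y⁻¹ * x⁻¹ * y * x) with hF
  have hstart : ∃ b : ↥(Cong D.A), F (SemidirectProduct.inr a) = SemidirectProduct.inl b ∧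
      b.1 ∈ Cong I := by
    refine ⟨(F (SemidirectProduct.inr a)).left, ?_, ?_⟩
    · ext1
      · rfl
      · simp only [hF, SemidirectProduct.mul_right, SemidirectProduct.inv_right,
          SemidirectProduct.right_inr, SemidirectProduct.right_inl]
        have : a⁻¹ * x.right⁻¹ = x.right⁻¹ * a⁻¹ := by
          apply Subtype.ext
          obtain ⟨n, hn⟩ := a.2
          obtain ⟨m, hm⟩ := x.right.2
          have hn' : (a : MulAut ↥(Cong D.A)) = sN D ^ n := hn.symm
          have hm' : (x.right : MulAut ↥(Cong D.A)) = sN D ^ m := hm.symm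
          simp only [Subgroup.coe_mul, Subgroup.coe_inv, hn', hm']
          group
        rw [this]
        simp
    · simp only [hF, SemidirectProduct.mul_left, SemidirectProduct.mul_right,
        SemidirectProduct.inv_left, SemidirectProduct.inv_right,
        SemidirectProduct.right_inr, SemidirectProduct.left_inr, Subgroup.coe_subtype, inv_one,
        map_one, one_mul, mul_one]
      have hstab : ∀ (τ : ↥(Subgroup.zpowers (sN D))) (v : ↥(Cong D.A)), v.1 ∈ Cong I →
          ((τ : MulAut ↥(Cong D.A)) v).1 ∈ Cong I := by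
        intro τ v hv
        obtain ⟨ρ', hρ', _, hρv⟩ := H_ring D τ
        rw [hρv]
        apply Cong_map ρ' _ hv
        rcases hρ' with rfl | rfl
        · intro a ha; exact ha
        · exact hIσ
      rw [Subgroup.coe_mul]
      apply mul_mem
      · apply hstab
        apply hstab
        rw [Subgroup.coe_inv]
        exact inv_mem hxI
      · apply hstab
        exact hxI
  obtain ⟨b, hb, hbI⟩ := hstart
  -- iteration in the congruence subgroup
  let g : (Matrix (Fin 3) (Fin 3) C)ˣ → (Matrix (Fin 3) (Fin 3) C)ˣ :=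
    fun b => b⁻¹ * sU ρ (x.left.1⁻¹ * b * x.left.1)
  have hg : ∀ b : ↥(Cong D.A), ∃ c : ↥(Cong D.A), F (SemidirectProduct.inl b) =
      SemidirectProduct.inl c ∧ c.1 = g b.1 := by
    intro b
    refine ⟨_, conj_formula D x b, ?_⟩
    rw [Subgroup.coe_mul, hρx]
    rfl
  have hiter : ∀ k : ℕ, ∀ b : ↥(Cong D.A), ∃ c : ↥(Cong D.A),
      F^[k] (SemidirectProduct.inl b) = SemidirectProduct.inl c ∧ c.1 = g^[k] b.1 := by
    intro k
    induction k with
    | zero => intro b; exact ⟨b, rfl, rfl⟩
    | succ k ih =>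
      intro b
      obtain ⟨c, hc, hc'⟩ := hg b
      obtain ⟨d, hd, hd'⟩ := ih c
      refine ⟨d, ?_, ?_⟩
      · rw [Function.iterate_succ_apply, hc, hd]
      · rw [Function.iterate_succ_apply, hd', hc']
  have hdown : ∀ k : ℕ, ∀ b : (Matrix (Fin 3) (Fin 3) C)ˣ, b ∈ Cong I →
      g^[2 * k] b ∈ Cong (I ^ (k + 1)) := by
    intro k
    induction k with
    | zero => intro b hb; simpa using hb
    | succ k ih =>
      intro b hb
      have h1 : 2 * (k + 1) = (2 * k).succ.succ := by omega
      rw [h1, Function.iterate_succ_apply', Function.iterate_succ_apply']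
      have h2 := ih b hb
      have h3 := two_steps D.two (I := I) (J := I ^ (k + 1)) (Ideal.pow_le_self (by omega)) ρ hρρ
        (hIρk (k + 1)) (by rw [← pow_succ']; exact hIρk (k + 2)) hxI h2 _ rfl
      rw [← pow_succ'] at h3
      exact h3
  rw [Function.iterate_succ_apply, hb]
  obtain ⟨c, hc, hc'⟩ := hiter 72 b
  rw [hc]
  have h36 := hdown 36 b.1 hbI
  rw [show (2 * 36 : ℕ) = 72 from rfl, show (36 + 1 : ℕ) = 37 from rfl, hI, Cong_bot,
    Subgroup.mem_bot, ← hc'] at h36
  have : c = 1 := Subtype.ext h36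
  rw [this, map_one]

end

end Pool.Agent.Lib_5f1296
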