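import Pool.Agent.Lib_5f1296.Series

set_option autoImplicit false
set_option linter.unusedSectionVars false
set_option linter.unusedVariables false

namespace Pool.Agent.Lib_5f1296

section

variable {C : Type} [CommRing C]

/-- elementary matrices as units -/
def E (i j : Fin 3) (h : i ≠ j) (f : C) : (Matrix (Fin 3) (Fin 3) C)ˣ where
  val := Matrix.transvection i j f
  inv := Matrix.transvection i j (-f)
  val_inv := by
    rw [Matrix.transvection_mul_transvection_same i j h, add_neg_cancel,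
      Matrix.transvection_zero]
  inv_val := by
    rw [Matrix.transvection_mul_transvection_same i j h, neg_add_cancel,
      Matrix.transvection_zero]

theorem E_val (i j : Fin 3) (h : i ≠ j) (f : C) :
    (E i j h f : Matrix (Fin 3) (Fin 3) C) = 1 + Matrix.single i j f := rfl

theorem E_inv (i j : Fin 3) (h : i ≠ j) (f : C) : (E i j h f)⁻¹ = E i j h (-f) := by
  apply Units.ext
  rfl

theorem E_mul (i j : Fin 3) (h : i ≠ j) (f g : C) : E i j h f * E i j h g = E i j h (f + g) := by
  apply Units.ext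
  exact Matrix.transvection_mul_transvection_same i j h f g

theorem E_mem {J : Ideal C} (i j : Fin 3) (h : i ≠ j) {f : C} (hf : f ∈ J) :
    E i j h f ∈ Cong J := by
  rw [mem_Cong, E_val, add_sub_cancel_left]
  intro a b
  rw [Matrix.single_apply]
  split_ifs
  · exact hf
  · exact J.zero_mem

theorem E_sigma (σ : C ≃+* C) (i j : Fin 3) (h : i ≠ j) (f : C) :
    sU σ (E i j h f) = E i j h (σ f) := by
  apply Units.ext
  rw [sU_val, E_val, E_val, map_add, map_one]
  congr 1
  ext a b
  show σ (Matrix.single i j f a b) = _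
  rw [Matrix.single_apply, Matrix.single_apply]
  split_ifs
  · rfl
  · exact map_zero σ

theorem E_comm (i j k : Fin 3) (hij : i ≠ j) (hjk : j ≠ k) (hik : i ≠ k) (f g : C) :
    E i j hij f * E j k hjk g * (E i j hij f)⁻¹ * (E j k hjk g)⁻¹ = E i k hik (f * g) := by
  have key : E i j hij f * E j k hjk g = E i k hik (f * g) * E j k hjk g * E i j hij f := by
    apply Units.ext
    simp only [Units.val_mul, E_val]
    have h1 : Matrix.single i j f * Matrix.single j k g = Matrix.single i k (f * g) :=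
      Matrix.single_mul_single_same f i j k g
    have h2 : Matrix.single j k g * Matrix.single i j f = (0 : Matrix (Fin 3) (Fin 3) C) :=
      Matrix.single_mul_single_of_ne _ _ _ _ hik.symm _
    have h3 : Matrix.single i k (f * g) * Matrix.single j k g = (0 : Matrix (Fin 3) (Fin 3) C) :=
      Matrix.single_mul_single_of_ne _ _ _ _ hjk.symm _
    have h4 : Matrix.single i k (f * g) * Matrix.single i j f = (0 : Matrix (Fin 3) (Fin 3) C) :=
      Matrix.single_mul_single_of_ne _ _ _ _ hik.symm _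
    rw [← h1]
    rw [← h1] at h3 h4
    generalize Matrix.single i j f = a at *
    generalize Matrix.single j k g = b at *
    have e1 : (1 + a * b) * (1 + b) * (1 + a)
        = 1 + a + b + a * b + b * a + a * b * a + a * b * b * (1 + a) := by noncomm_ring
    have e2 : (1 + a) * (1 + b) = 1 + a + b + a * b := by noncomm_ring
    rw [e1, e2, h2, h3, h4]
    simp
  rw [key]
  group

end

section

variable {C : Type} [CommRing C] (D : Data C)

/-- The elementary matrices inside the group. -/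
def eG (i j : Fin 3) (h : i ≠ j) (f : C) (hf : f ∈ D.A) : GG D :=
  SemidirectProduct.inl ⟨E i j h f, E_mem i j h hf⟩

/-- all elementary matrices with entry `f` lie in `K` -/
def Good (K : Subgroup (GG D)) (f : C) : Prop :=
  ∃ hf : f ∈ D.A, ∀ (i j : Fin 3) (h : i ≠ j), eG D i j h f hf ∈ K

/-- the generator of the complement -/
def τ : GG D := SemidirectProduct.inr ⟨sN D, Subgroup.mem_zpowers _⟩

theorem eG_τ (i j : Fin 3) (h : i ≠ j) (f : C) (hf : f ∈ D.A) (hf' : f - D.σ f ∈ D.A) :
    eG D i j h f hf * τ D * (eG D i j h f hf)⁻¹ * (τ D)⁻¹ = eG D i j h (f - D.σ f) hf' := by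
  have h1 : τ D * (eG D i j h f hf)⁻¹ * (τ D)⁻¹ = eG D i j h (-D.σ f) (by
      exact D.A.neg_mem (D.stab f hf)) := by
    unfold τ eG
    rw [← map_inv, ← map_inv, ← SemidirectProduct.inl_aut]
    congr 1
    apply Subtype.ext
    show sU D.σ ((E i j h f)⁻¹) = E i j h (-D.σ f)
    rw [E_inv, E_sigma, map_neg]
  rw [mul_assoc, mul_assoc, ← mul_assoc (τ D), h1]
  unfold eG
  rw [← map_mul]
  congr 1
  apply Subtype.ext
  show E i j h f * E i j h (-D.σ f) = _
  rw [E_mul, ← sub_eq_add_neg]

theorem eG_comm (i j k : Fin 3) (hij : i ≠ j) (hjk : j ≠ k) (hik : i ≠ k) (f g : C)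
    (hf : f ∈ D.A) (hg : g ∈ D.A) (hfg : f * g ∈ D.A) :
    eG D i j hij f hf * eG D j k hjk g hg * (eG D i j hij f hf)⁻¹ * (eG D j k hjk g hg)⁻¹
      = eG D i k hik (f * g) hfg := by
  unfold eG
  rw [← map_mul, ← map_inv, ← map_mul, ← map_inv, ← map_mul]
  congr 1
  apply Subtype.ext
  exact E_comm i j k hij hjk hik f g

/-- The step lemma. -/
theorem step {K K' : Subgroup (GG D)} (hK : K' ≤ K)
    (hn : ∀ g ∈ K, ∀ h ∈ K', g * h * g⁻¹ ∈ K') (hτ : τ D ∈ K') {f g : C}
    (hf : Good D K f) (hg : Good D K g) : Good D K' ((f - D.σ f) * g) := by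
  obtain ⟨hfA, hf⟩ := hf
  obtain ⟨hgA, hg⟩ := hg
  have hf'A : f - D.σ f ∈ D.A := D.A.sub_mem hfA (D.stab f hfA)
  have hfgA : (f - D.σ f) * g ∈ D.A := D.A.mul_mem_left _ hgA
  refine ⟨hfgA, fun i k hik => ?_⟩
  obtain ⟨j, hij, hjk⟩ : ∃ j : Fin 3, i ≠ j ∧ j ≠ k := by
    revert hik
    revert i k
    decide
  have h1 : eG D i j hij (f - D.σ f) hf'A ∈ K' := by
    rw [← eG_τ D i j hij f hfA hf'A]
    exact mul_mem (hn _ (hf i j hij) _ hτ) (inv_mem hτ)
  rw [← eG_comm D i j k hij hjk hik (f - D.σ f) g hf'A hgA hfgA, mul_assoc, mul_assoc]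
  apply mul_mem h1
  rw [← mul_assoc]
  exact hn _ (hg j k hjk) _ (inv_mem h1)

/-- The recursively defined elements. -/
def Fn (y : ℕ → C) : ℕ → ℕ → C
  | 0, a => y a
  | (m + 1), a => (Fn y m a - D.σ (Fn y m a)) * Fn y m (a + 2 ^ m)

theorem not_subnormal (y : ℕ → C) (hy : ∀ a, y a ∈ D.A) (hF : ∀ m, Fn D y m 0 ≠ 0)
    (n : ℕ) (H : ℕ → Subgroup (GG D))
    (h0 : H 0 = Subgroup.zpowers (τ D))
    (hn : H n = Subgroup.zpowers (τ D) ⊔ Subgroup.normalClosure {τ D})
    (hi : ∀ i < n, H i ≤ H (i + 1) ∧ ∀ g ∈ H (i + 1), ∀ h ∈ H i, g * h * g⁻¹ ∈ H i) : False := by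
  have hτ : ∀ i, i ≤ n → τ D ∈ H i := by
    intro i
    induction i with
    | zero => intro _; rw [h0]; exact Subgroup.mem_zpowers _
    | succ i ih => intro h; exact (hi i (by omega)).1 (ih (by omega))
  have main : ∀ m, m ≤ n → ∀ a, Good D (H (n - m)) (Fn D y (m + 1) a) := by
    intro m
    induction m with
    | zero =>
      intro _ a
      have h1 : Good D (Subgroup.normalClosure {τ D}) (Fn D y 1 a) := by
        refine step D (K := ⊤) le_top ?_ ?_ (f := y a) (g := y (a + 2 ^ 0)) ?_ ?_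
        · intro g _ h hh
          exact Subgroup.normalClosure_normal.conj_mem h hh g
        · exact Subgroup.subset_normalClosure rfl
        · exact ⟨hy _, fun i j h => Subgroup.mem_top _⟩
        · exact ⟨hy _, fun i j h => Subgroup.mem_top _⟩
      obtain ⟨hA, h2⟩ := h1
      refine ⟨hA, fun i j h => ?_⟩
      rw [Nat.sub_zero, hn]
      exact Subgroup.mem_sup_right (h2 i j h)
    | succ m ih =>
      intro hm a
      have h1 := ih (by omega)
      have h2 := hi (n - (m + 1)) (by omega)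
      have h3 : n - (m + 1) + 1 = n - m := by omega
      rw [h3] at h2
      exact step D h2.1 h2.2 (hτ _ (by omega)) (h1 a) (h1 (a + 2 ^ (m + 1)))
  obtain ⟨hA, h2⟩ := main n le_rfl 0
  have h3 := h2 0 1 (by decide)
  rw [Nat.sub_self, h0] at h3
  obtain ⟨k, hk⟩ := h3
  have h4 : (eG D 0 1 (by decide) _ hA).left = 1 := by
    rw [← hk]
    show ((τ D) ^ k).left = 1
    unfold τ
    rw [← map_zpow]
    rfl
  have h5 : (E 0 1 (by decide) (Fn D y (n + 1) 0) : (Matrix (Fin 3) (Fin 3) C)ˣ) = 1 :=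
    congrArg Subtype.val h4
  have h6 : ((E 0 1 (by decide) (Fn D y (n + 1) 0) : (Matrix (Fin 3) (Fin 3) C)ˣ) :
      Matrix (Fin 3) (Fin 3) C) 0 1 = (1 : Matrix (Fin 3) (Fin 3) C) 0 1 := by
    rw [h5]; rfl
  rw [E_val, Matrix.add_apply, Matrix.single_apply_same, Matrix.one_apply_ne (by decide),
    zero_add] at h6
  exact hF _ h6

end

end Pool.Agent.Lib_5f1296
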