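import Pool.Agent.Lib_5f1296.NotSub

set_option autoImplicit false
set_option linter.unusedSectionVars false
set_option linter.unusedVariables false

namespace Pool.Agent.Lib_5f1296

open MvPolynomial

/-- The polynomial ring. -/
abbrev P : Type := MvPolynomial ℕ (ZMod 2)

/-- The ideal of squares of the variables. -/
noncomputable def Q : Ideal P := Ideal.span (Set.range (fun n : ℕ => (X n : P) ^ 2))

/-- The ring. -/
abbrev CC : Type := P ⧸ Q

/-- the variables in the quotient -/
noncomputable def x (n : ℕ) : CC := Ideal.Quotient.mk Q (X n)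

theorem two_P : (2 : P) = 0 := by
  have h2 : (2 : ZMod 2) = 0 := by decide
  have h3 := congrArg (C : ZMod 2 →+* P) h2
  rwa [map_ofNat, map_zero] at h3

theorem two_CC : (2 : CC) = 0 := by
  have := congrArg (Ideal.Quotient.mk Q) two_P
  rwa [map_ofNat, map_zero] at this

theorem x_sq (n : ℕ) : x n * x n = 0 := by
  unfold x
  rw [← map_mul, Ideal.Quotient.eq_zero_iff_mem, ← sq]
  exact Ideal.subset_span ⟨n, rfl⟩

/-- the substitution -/
noncomputable def φ : P →ₐ[ZMod 2] P :=
  aeval (fun n => if Even n then X n + X (n + 1) else X n)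

theorem φ_X (n : ℕ) : φ (X n) = if Even n then X n + X (n + 1) else X n := by
  unfold φ
  rw [aeval_X]

theorem φ_sq (n : ℕ) : φ ((X n : P) ^ 2) ∈ Q := by
  rw [map_pow, φ_X]
  split_ifs with h
  · have : ((X n : P) + X (n + 1)) ^ 2 = X n ^ 2 + X (n + 1) ^ 2 := by
      have h2 := two_P
      linear_combination ((X n : P) * X (n + 1)) * h2
    rw [this]
    exact Q.add_mem (Ideal.subset_span ⟨n, rfl⟩) (Ideal.subset_span ⟨n + 1, rfl⟩)
  · exact Ideal.subset_span ⟨n, rfl⟩

theorem Q_le : Q ≤ Q.comap (φ : P →+* P) := by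
  unfold Q
  rw [Ideal.span_le]
  rintro _ ⟨n, rfl⟩
  exact φ_sq n

/-- the induced endomorphism -/
noncomputable def ψ : CC →+* CC := Ideal.quotientMap Q (φ : P →+* P) Q_le

theorem ψ_mk (p : P) : ψ (Ideal.Quotient.mk Q p) = Ideal.Quotient.mk Q (φ p) := rfl

theorem ψ_even (a : ℕ) : ψ (x (2 * a)) = x (2 * a) + x (2 * a + 1) := by
  unfold x
  rw [ψ_mk, φ_X, if_pos (even_two_mul a), map_add]

theorem ψ_odd (a : ℕ) : ψ (x (2 * a + 1)) = x (2 * a + 1) := by
  unfold x
  rw [ψ_mk, φ_X, if_neg (by simp)]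

theorem φφ (p : P) : φ (φ p) = p := by
  have h : (φ.comp φ : P →ₐ[ZMod 2] P) = AlgHom.id (ZMod 2) P := by
    apply MvPolynomial.algHom_ext
    intro n
    rw [AlgHom.comp_apply, φ_X]
    split_ifs with h
    · rw [map_add, φ_X, φ_X, if_pos h, if_neg (by simpa [Nat.even_add_one] using h)]
      rw [AlgHom.id_apply]
      have h2 := two_P
      linear_combination (X (n + 1) : P) * h2
    · rw [φ_X, if_neg h, AlgHom.id_apply]
  exact DFunLike.congr_fun h p

theorem ψψ (c : CC) : ψ (ψ c) = c := by
  obtain ⟨p, rfl⟩ := Ideal.Quotient.mk_surjective c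
  rw [ψ_mk, ψ_mk, φφ]

/-- the involution -/
noncomputable def σσ : CC ≃+* CC :=
  RingEquiv.ofRingHom ψ ψ (RingHom.ext ψψ) (RingHom.ext ψψ)

theorem σσ_apply (c : CC) : σσ c = ψ c := rfl

/-- the nil ideal -/
noncomputable def AA : Ideal CC := Ideal.span (Set.range x)

/-- the chain of ideals -/
noncomputable def JJ (k : ℕ) : Ideal CC := Ideal.span (x '' {n | n < k})

theorem JJ_mono : Monotone JJ := by
  intro k l hkl
  apply Ideal.span_mono
  apply Set.image_mono
  intro n hn
  exact lt_of_lt_of_le hn hkl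

theorem JJ_succ (k : ℕ) : JJ (k + 1) = JJ k ⊔ Ideal.span {x k} := by
  unfold JJ
  rw [← Ideal.span_union]
  congr 1
  ext c
  constructor
  · rintro ⟨n, hn, rfl⟩
    rcases Nat.lt_succ_iff_lt_or_eq.1 hn with h | h
    · left; exact ⟨n, h, rfl⟩
    · right; rw [h]; rfl
  · rintro (⟨n, hn, rfl⟩ | h)
    · exact ⟨n, Nat.lt_succ_of_lt hn, rfl⟩
    · rw [Set.mem_singleton_iff] at h
      rw [h]
      exact ⟨k, Nat.lt_succ_self k, rfl⟩

/-- The data. -/
noncomputable def DD : Data CC where
  σ := σσ
  invol := ψψ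
  two := two_CC
  A := AA
  sq := by
    intro a ha
    unfold AA at ha
    induction ha using Submodule.span_induction with
    | mem a h => obtain ⟨n, rfl⟩ := h; exact x_sq n
    | zero => rw [mul_zero]
    | add a b _ _ ha hb =>
      have h2 := two_CC
      linear_combination ha + hb + a * b * h2
    | smul c a _ ha =>
      rw [smul_eq_mul]
      linear_combination c * c * ha
  stab := by
    intro a ha
    have h1 : AA ≤ AA.comap σσ := by
      unfold AA
      rw [Ideal.span_le]
      rintro _ ⟨n, rfl⟩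
      show σσ (x n) ∈ Ideal.span (Set.range x)
      rw [σσ_apply]
      rcases Nat.even_or_odd' n with ⟨m, rfl | rfl⟩
      · rw [ψ_even]
        exact Ideal.add_mem _ (Ideal.subset_span ⟨_, rfl⟩) (Ideal.subset_span ⟨_, rfl⟩)
      · rw [ψ_odd]
        exact Ideal.subset_span ⟨_, rfl⟩
    exact h1 ha
  J := JJ
  J0 := by
    unfold JJ
    simp
  Jmono := JJ_mono
  Jsq := by
    intro k
    rw [JJ_succ]
    rw [Ideal.sup_mul, Ideal.mul_sup, Ideal.mul_sup]
    refine sup_le (sup_le Ideal.mul_le_right Ideal.mul_le_left) (sup_le Ideal.mul_le_right ?_)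
    rw [Ideal.span_singleton_mul_span_singleton, x_sq]
    simp
  JA := by
    intro k
    apply Ideal.span_mono
    exact Set.image_subset_range _ _
  Jsup := by
    have h1 : ∀ a ∈ AA, ∃ k, a ∈ JJ k := by
      intro a ha
      unfold AA at ha
      induction ha using Submodule.span_induction with
      | mem a h =>
        obtain ⟨n, rfl⟩ := h
        exact ⟨n + 1, Ideal.subset_span ⟨n, Nat.lt_succ_self n, rfl⟩⟩
      | zero => exact ⟨0, Ideal.zero_mem _⟩
      | add a b _ _ ha hb =>
        obtain ⟨k, hk⟩ := ha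
        obtain ⟨l, hl⟩ := hb
        exact ⟨max k l, Ideal.add_mem _ (JJ_mono (le_max_left k l) hk)
          (JJ_mono (le_max_right k l) hl)⟩
      | smul c a _ ha =>
        obtain ⟨k, hk⟩ := ha
        exact ⟨k, Ideal.mul_mem_left _ _ hk⟩
    intro s
    classical
    induction s using Finset.induction_on with
    | empty => intro _; exact ⟨0, by simp⟩
    | insert a s _ ih =>
      intro h
      obtain ⟨k, hk⟩ := ih (fun b hb => h b (Finset.mem_insert_of_mem hb))
      obtain ⟨l, hl⟩ := h1 a (h a (Finset.mem_insert_self a s))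
      refine ⟨max k l, ?_⟩
      intro b hb
      rw [Finset.mem_insert] at hb
      rcases hb with rfl | hb
      · exact JJ_mono (le_max_right k l) hl
      · exact JJ_mono (le_max_left k l) (hk b hb)

/-- squarefree monomials do not vanish -/
theorem prod_ne (N a : ℕ) : ∏ i ∈ Finset.range N, x (2 * (a + i) + 1) ≠ 0 := by
  unfold x
  rw [← map_prod]
  intro h
  rw [Ideal.Quotient.eq_zero_iff_mem] at h
  have hQ : Q = Ideal.span ((fun s => monomial s (1 : ZMod 2)) ''
      (Set.range (fun n : ℕ => Finsupp.single n 2))) := by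
    unfold Q
    congr 1
    rw [← Set.range_comp]
    congr 1
    ext1 n
    show (X n : P) ^ 2 = monomial (Finsupp.single n 2) 1
    rw [X_pow_eq_monomial]
  have hp : ∏ i ∈ Finset.range N, (X (2 * (a + i) + 1) : P)
      = monomial (∑ i ∈ Finset.range N, Finsupp.single (2 * (a + i) + 1) 1) 1 := by
    have : ∀ i ∈ Finset.range N, (X (2 * (a + i) + 1) : P)
        = monomial (Finsupp.single (2 * (a + i) + 1) 1) 1 := fun i _ => rfl
    rw [Finset.prod_congr rfl this]
    rw [← MvPolynomial.monomial_sum_one]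
  rw [hQ, hp, mem_ideal_span_monomial_image] at h
  have h1 := h (∑ i ∈ Finset.range N, Finsupp.single (2 * (a + i) + 1) 1) (by
    rw [mem_support_iff, coeff_monomial, if_pos rfl]
    exact one_ne_zero)
  obtain ⟨s, ⟨n, rfl⟩, hle⟩ := h1
  have h2 := hle n
  rw [Finsupp.finsetSum_apply] at h2
  simp only [Finsupp.single_apply] at h2
  rw [Finset.sum_ite, Finset.sum_const_zero, add_zero, Finset.sum_const] at h2
  have h3 : (Finset.filter (fun i => 2 * (a + i) + 1 = n) (Finset.range N)).card ≤ 1 := by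
    rw [Finset.card_le_one]
    intro i hi j hj
    rw [Finset.mem_filter] at hi hj
    omega
  simp at h2
  omega

theorem Z_formula (m : ℕ) : ∀ a, Fn DD (fun a => x (2 * a)) m a
      - ψ (Fn DD (fun a => x (2 * a)) m a) = ∏ i ∈ Finset.range (2 ^ m), x (2 * (a + i) + 1) := by
  induction m with
  | zero =>
    intro a
    show x (2 * a) - ψ (x (2 * a)) = _
    rw [ψ_even]
    simp only [pow_zero, Finset.range_one, Finset.prod_singleton, add_zero]
    linear_combination -(x (2 * a + 1)) * two_CC
  | succ m ih =>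
    intro a
    have h1 : Fn DD (fun a => x (2 * a)) (m + 1) a
        = (∏ i ∈ Finset.range (2 ^ m), x (2 * (a + i) + 1))
          * Fn DD (fun a => x (2 * a)) m (a + 2 ^ m) := by
      rw [← ih a]
      rfl
    have h2 : ψ (∏ i ∈ Finset.range (2 ^ m), x (2 * (a + i) + 1))
        = ∏ i ∈ Finset.range (2 ^ m), x (2 * (a + i) + 1) := by
      rw [map_prod]
      exact Finset.prod_congr rfl (fun i _ => ψ_odd _)
    rw [h1, map_mul, h2, ← mul_sub, ih (a + 2 ^ m)]
    rw [pow_succ, mul_two, Finset.prod_range_add]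
    congr 1
    apply Finset.prod_congr rfl
    intro i _
    congr 2
    ring

theorem Fn_ne (m : ℕ) : Fn DD (fun a => x (2 * a)) m 0 ≠ 0 := by
  intro h
  have := Z_formula m 0
  rw [h, map_zero, sub_zero] at this
  exact prod_ne _ _ this.symm

end Pool.Agent.Lib_5f1296
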