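import Pool.Agent.Lib_5f1296.Engel

set_option autoImplicit false
set_option linter.unusedSectionVars false
set_option linter.unusedVariables false

namespace Pool.Agent.Lib_5f1296

open Ordinal

section

variable {C : Type} [CommRing C] (D : Data C)

/-- finite stages of the ascending series -/
def B (k : ℕ) : Subgroup (GG D) :=
  ((Cong (D.J k)).subgroupOf (Cong D.A)).map SemidirectProduct.inl

/-- the stage `ω` -/
def Bω : Subgroup (GG D) := (SemidirectProduct.inl : ↥(Cong D.A) →* GG D).range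

theorem mem_B {k : ℕ} {x : GG D} :
    x ∈ B D k ↔ ∃ b : ↥(Cong D.A), b.1 ∈ Cong (D.J k) ∧ SemidirectProduct.inl b = x := by
  unfold B
  rw [Subgroup.mem_map]
  constructor
  · rintro ⟨b, hb, rfl⟩
    exact ⟨b, hb, rfl⟩
  · rintro ⟨b, hb, rfl⟩
    exact ⟨b, hb, rfl⟩

theorem B_zero : B D 0 = ⊥ := by
  rw [eq_bot_iff]
  intro x hx
  rw [mem_B] at hx
  obtain ⟨b, hb, rfl⟩ := hx
  rw [D.J0, Cong_bot, Subgroup.mem_bot] at hb
  have : b = 1 := Subtype.ext hb
  rw [this, map_one]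
  exact Subgroup.mem_bot.2 rfl

theorem B_mono : Monotone (B D) := by
  intro k l hkl x hx
  rw [mem_B] at hx ⊢
  obtain ⟨b, hb, rfl⟩ := hx
  exact ⟨b, Cong_mono (D.Jmono hkl) hb, rfl⟩

theorem B_conj (k l : ℕ) (g h : GG D) (hg : g ∈ B D l) (hh : h ∈ B D k) :
    g * h * g⁻¹ ∈ B D k := by
  rw [mem_B] at hg hh ⊢
  obtain ⟨b, hb, rfl⟩ := hg
  obtain ⟨c, hc, rfl⟩ := hh
  refine ⟨b * c * b⁻¹, (Cong_normal (D.J k)).conj_mem c.1 hc b.1, ?_⟩
  rw [map_mul, map_mul, map_inv]

theorem B_comm (k : ℕ) (g h : GG D) (hg : g ∈ B D (k + 1)) (hh : h ∈ B D (k + 1)) :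
    g * h * g⁻¹ * h⁻¹ ∈ B D k := by
  rw [mem_B] at hg hh ⊢
  obtain ⟨b, hb, rfl⟩ := hg
  obtain ⟨c, hc, rfl⟩ := hh
  refine ⟨b * c * b⁻¹ * c⁻¹, Cong_comm (D.Jsq k) hb hc, ?_⟩
  rw [map_mul, map_mul, map_mul, map_inv, map_inv]

theorem B_le_Bω (k : ℕ) : B D k ≤ Bω D := by
  intro x hx
  rw [mem_B] at hx
  obtain ⟨b, hb, rfl⟩ := hx
  exact ⟨b, rfl⟩

theorem exists_B {x : GG D} (hx : x ∈ Bω D) : ∃ k, x ∈ B D k := by
  classical
  obtain ⟨b, rfl⟩ := hx
  obtain ⟨k, hk⟩ := D.Jsup (Finset.univ.image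
    (fun p : Fin 3 × Fin 3 => ((b.1 : Matrix (Fin 3) (Fin 3) C) - 1) p.1 p.2)) (by
      intro a ha
      rw [Finset.mem_image] at ha
      obtain ⟨p, _, rfl⟩ := ha
      exact b.2 p.1 p.2)
  refine ⟨k, (mem_B D).2 ⟨b, ?_, rfl⟩⟩
  intro i j
  exact hk _ (Finset.mem_image.2 ⟨(i, j), Finset.mem_univ _, rfl⟩)

theorem mem_Bω {x : GG D} : x ∈ Bω D ↔ x.right = 1 := by
  constructor
  · rintro ⟨b, rfl⟩
    rfl
  · intro h
    refine ⟨x.left, ?_⟩
    ext1
    · rfl
    · exact h.symm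

theorem right_comm (a b : ↥(Subgroup.zpowers (sN D))) : a * b = b * a := by
  apply Subtype.ext
  obtain ⟨n, hn⟩ := a.2
  obtain ⟨m, hm⟩ := b.2
  have hn' : (a : MulAut ↥(Cong D.A)) = sN D ^ n := hn.symm
  have hm' : (b : MulAut ↥(Cong D.A)) = sN D ^ m := hm.symm
  simp only [Subgroup.coe_mul, hn', hm']
  group

open Classical in
/-- The ascending series. -/
noncomputable def S (α : Ordinal.{0}) : Subgroup (GG D) :=
  if h : α < ω then B D (Classical.choose (Ordinal.lt_omega0.1 h))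
  else if α = ω then Bω D else ⊤

theorem S_nat (n : ℕ) : S D (n : Ordinal.{0}) = B D n := by
  unfold S
  have h : (n : Ordinal.{0}) < ω := Ordinal.natCast_lt_omega0 n
  rw [dif_pos h]
  have := Classical.choose_spec (Ordinal.lt_omega0.1 h)
  congr 1
  exact_mod_cast this.symm

theorem S_omega : S D ω = Bω D := by
  unfold S
  rw [dif_neg (lt_irrefl _), if_pos rfl]

theorem S_top : S D (Order.succ ω) = ⊤ := by
  unfold S
  have h1 : ¬ (Order.succ (ω : Ordinal.{0}) < ω) := not_lt.2 (Order.le_succ _)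
  have h2 : ¬ (Order.succ (ω : Ordinal.{0}) = ω) := (Order.lt_succ (ω : Ordinal.{0})).ne'
  rw [dif_neg h1, if_neg h2]

theorem series :
    ∃ (β : Ordinal.{0}) (S : Ordinal.{0} → Subgroup (GG D)),
        S 0 = ⊥ ∧ S β = ⊤ ∧
        (∀ α < β, S α ≤ S (Order.succ α) ∧
          (∀ g ∈ S (Order.succ α), ∀ h ∈ S α, g * h * g⁻¹ ∈ S α) ∧
          (∀ x ∈ S (Order.succ α), ∀ y ∈ S (Order.succ α), x * y * x⁻¹ * y⁻¹ ∈ S α)) ∧
        (∀ l ≤ β, Order.IsSuccLimit l → S l = ⨆ (α : Ordinal.{0}) (_ : α < l), S α) := by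
  refine ⟨Order.succ ω, S D, ?_, S_top D, ?_, ?_⟩
  · have := S_nat D 0
    rw [Nat.cast_zero] at this
    rw [this, B_zero]
  · intro α hα
    rw [Order.lt_succ_iff] at hα
    rcases hα.lt_or_eq with h | h
    · obtain ⟨n, rfl⟩ := Ordinal.lt_omega0.1 h
      have h1 : Order.succ (n : Ordinal.{0}) = ((n + 1 : ℕ) : Ordinal.{0}) := by
        rw [Nat.cast_add, Nat.cast_one]; rfl
      rw [h1, S_nat, S_nat]
      exact ⟨B_mono D (Nat.le_succ n), fun g hg h hh => B_conj D n (n + 1) g h hg hh,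
        fun g hg h hh => B_comm D n g h hg hh⟩
    · subst h
      rw [S_top, S_omega]
      refine ⟨le_top, fun g _ h hh => ?_, fun x _ y _ => ?_⟩
      · rw [mem_Bω] at hh ⊢
        simp only [SemidirectProduct.mul_right, SemidirectProduct.inv_right, hh, mul_one,
          mul_inv_cancel]
      · rw [mem_Bω]
        simp only [SemidirectProduct.mul_right, SemidirectProduct.inv_right]
        rw [right_comm D x.right y.right]
        group
  · intro l hl hlim
    rcases hl.lt_or_eq with h | h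
    · rw [Order.lt_succ_iff] at h
      rcases h.lt_or_eq with h | h
      · exfalso
        obtain ⟨n, rfl⟩ := Ordinal.lt_omega0.1 h
        have h2 := hlim
        rw [Ordinal.isSuccLimit_iff] at h2
        have := Ordinal.omega0_le_of_isSuccLimit hlim
        exact absurd (Ordinal.natCast_lt_omega0 n) (not_lt.2 this)
      · subst h
        rw [S_omega]
        apply le_antisymm
        · intro x hx
          obtain ⟨k, hk⟩ := exists_B D hx
          have h1 : S D (k : Ordinal.{0}) ≤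
              ⨆ (α : Ordinal.{0}) (_ : α < ω), S D α :=
            le_iSup₂_of_le (k : Ordinal.{0}) (Ordinal.natCast_lt_omega0 k) le_rfl
          apply h1
          rw [S_nat]
          exact hk
        · apply iSup₂_le
          intro α hα
          obtain ⟨n, rfl⟩ := Ordinal.lt_omega0.1 hα
          rw [S_nat]
          exact B_le_Bω D n
    · exfalso
      subst h
      exact Order.not_isSuccLimit_succ _ hlim

end

end Pool.Agent.Lib_5f1296
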